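import Pool.Agent.Helper23.MV.StP
import Pool.Agent.Helper92.GK.M_LAN
import Pool.Agent.Helper22.GK.M_TFO

/-!
# Project MV: GRD (the regularized logarithmic derivative)
-/

set_option autoImplicit false

namespace Pool.Agent.Helper94.MV

open Pool.Agent.Helper23.MV
open Filter Topology

private theorem r_one {c : PCh} (h : c.χ = 1) : c.r = 1 := by
  have h1 := c.prim
  rw [h, DirichletCharacter.isPrimitive_def, DirichletCharacter.conductor_one] at h1
  exact h1.symm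

private theorem L_zeta {c : PCh} (h : c.χ = 1) : c.L = riemannZeta := by
  have h1 := r_one h
  obtain ⟨r, hr, χ, p⟩ := c
  simp only at h1
  subst h1
  exact DirichletCharacter.LFunction_modOne_eq

private theorem L_ne {c : PCh} {s : ℂ} (hs : 1 ≤ s.re) : c.L s ≠ 0 := by
  by_cases h : c.χ ≠ 1 ∨ s ≠ 1
  · exact DirichletCharacter.LFunction_ne_zero_of_one_le_re c.χ h hs
  · push Not at h
    rw [L_zeta h.1, h.2]
    exact riemannZeta_one_ne_zero

private theorem L_da (c : PCh) {s : ℂ} (hs : s ≠ 1) : DifferentiableAt ℂ c.L s :=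
  DirichletCharacter.differentiableAt_LFunction c.χ s (Or.inl hs)

private theorem L_an (c : PCh) {s : ℂ} (hs : s ≠ 1) : AnalyticAt ℂ c.L s := by
  have h : AnalyticOnNhd ℂ c.L {(1 : ℂ)}ᶜ := by
    refine DifferentiableOn.analyticOnNhd ?_ isOpen_compl_singleton
    intro s hs
    exact (L_da c hs).differentiableWithinAt
  exact h s hs

/-- the entire function -/
private theorem entG (c : PCh) : ∃ f : ℂ → ℂ, Differentiable ℂ f ∧
    (c.χ = 1 → (∀ s, s ≠ 1 → f s = (s - 1) * c.L s) ∧ f 1 = 1) ∧ (c.χ ≠ 1 → f = c.L) := by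
  by_cases h : c.χ = 1
  · have : NeZero (1 : ℕ) := ⟨one_ne_zero⟩
    refine ⟨DirichletCharacter.LFunctionTrivChar₁ 1, DirichletCharacter.differentiable_LFunctionTrivChar₁ 1,
      fun _ => ⟨?_, ?_⟩, fun h' => absurd h h'⟩
    · intro s hs
      rw [L_zeta h]
      unfold DirichletCharacter.LFunctionTrivChar₁
      rw [Function.update_of_ne hs]
      congr 1
      unfold DirichletCharacter.LFunctionTrivChar
      rw [DirichletCharacter.LFunction_modOne_eq]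
    · unfold DirichletCharacter.LFunctionTrivChar₁
      rw [Function.update_self]
      simp
  · refine ⟨c.L, ?_, fun h' => absurd h' h, fun _ => rfl⟩
    exact DirichletCharacter.differentiable_LFunction h

private theorem entZ {c : PCh} {f : ℂ → ℂ}
    (h1 : c.χ = 1 → (∀ s, s ≠ 1 → f s = (s - 1) * c.L s) ∧ f 1 = 1) (h2 : c.χ ≠ 1 → f = c.L)
    (s : ℂ) : f s = 0 ↔ c.L s = 0 := by
  by_cases h : c.χ = 1
  · by_cases hs : s = 1
    · subst hs
      rw [(h1 h).2]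
      exact iff_of_false one_ne_zero (L_ne (by simp))
    · rw [(h1 h).1 s hs, mul_eq_zero]
      exact or_iff_right (sub_ne_zero.2 hs)
  · rw [h2 h]

private theorem entM {c : PCh} {f : ℂ → ℂ}
    (h1 : c.χ = 1 → (∀ s, s ≠ 1 → f s = (s - 1) * c.L s) ∧ f 1 = 1) (h2 : c.χ ≠ 1 → f = c.L)
    {s : ℂ} (hs : s ≠ 1) : analyticOrderNatAt f s = mz c s := by
  by_cases h : c.χ = 1
  · unfold mz analyticOrderNatAt
    congr 1
    have h3 : f =ᶠ[𝓝 s] (fun z => z - 1) * c.L := by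
      filter_upwards [isOpen_ne.mem_nhds hs] with z hz
      exact (h1 h).1 z hz
    have h4 : AnalyticAt ℂ (fun z : ℂ => z - 1) s := by fun_prop
    rw [analyticOrderAt_congr h3, analyticOrderAt_mul h4 (L_an c hs),
      h4.analyticOrderAt_eq_zero.2 (sub_ne_zero.2 hs), zero_add]
  · rw [h2 h]; rfl

private theorem entD {c : PCh} {f : ℂ → ℂ}
    (h1 : c.χ = 1 → (∀ s, s ≠ 1 → f s = (s - 1) * c.L s) ∧ f 1 = 1) (h2 : c.χ ≠ 1 → f = c.L)
    {s : ℂ} (hs : 1 < s.re) :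
    deriv f s / f s = deriv c.L s / c.L s + (if c.χ = 1 then 1 / (s - 1) else 0) := by
  have hs1 : s ≠ 1 := by
    rintro rfl
    simp at hs
  by_cases h : c.χ = 1
  · rw [if_pos h]
    have h3 : f =ᶠ[𝓝 s] (fun z => (z - 1) * c.L z) := by
      filter_upwards [isOpen_ne.mem_nhds hs1] with z hz
      exact (h1 h).1 z hz
    have h5 : s - 1 ≠ 0 := sub_ne_zero.2 hs1
    have h6 : c.L s ≠ 0 := L_ne hs.le
    rw [h3.deriv_eq, (h1 h).1 s hs1, deriv_fun_mul (by fun_prop) (L_da c hs1)]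
    simp only [deriv_sub_const, deriv_id'', one_mul]
    field_simp
    ring
  · rw [if_neg h, h2 h, add_zero]

/-- the regularization -/
private theorem entR {c : PCh} {f : ℂ → ℂ} (hf : Differentiable ℂ f)
    (h1 : c.χ = 1 → (∀ s, s ≠ 1 → f s = (s - 1) * c.L s) ∧ f 1 = 1) (h2 : c.χ ≠ 1 → f = c.L)
    (Z : Finset ℂ) (hZ : ∀ ρ ∈ Z, ρ ≠ 1) :
    ∃ F : ℂ → ℂ, Differentiable ℂ F ∧ (∀ ρ ∈ Z, F ρ ≠ 0) ∧
      ∀ z, f z = (∏ ρ ∈ Z, (z - ρ) ^ (mz c ρ)) * F z := by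
  have hne : ∀ ρ ∈ (Set.univ : Set ℂ), ¬ ∀ᶠ z in 𝓝 ρ, f z = 0 := by
    intro ρ _ h
    have h3 : AnalyticOnNhd ℂ f Set.univ := hf.differentiableOn.analyticOnNhd isOpen_univ
    have h4 := h3.eqOn_zero_of_preconnected_of_eventuallyEq_zero isPreconnected_univ
      (Set.mem_univ ρ) h (Set.mem_univ (2 : ℂ))
    exact L_ne (c := c) (s := 2) (by simp) ((entZ h1 h2 2).1 h4)
  obtain ⟨m, F, hF, hFZ, hfF⟩ := Pool.Agent.Helper92.GK.extract_finset f Set.univ isOpen_univ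
    hf.differentiableOn hne Z (fun _ _ => Set.mem_univ _)
  have hFd : Differentiable ℂ F := differentiableOn_univ.1 hF
  refine ⟨F, hFd, hFZ, fun z => ?_⟩
  rw [hfF z]
  congr 1
  refine Finset.prod_congr rfl fun ρ hρ => ?_
  congr 1
  rw [← entM h1 h2 (hZ ρ hρ)]
  have hfa : AnalyticAt ℂ f ρ := hf.analyticAt ρ
  have h5 : analyticOrderAt f ρ = (m ρ : ℕ∞) := by
    rw [hfa.analyticOrderAt_eq_natCast]
    classical
    refine ⟨fun z => (∏ τ ∈ Z.erase ρ, (z - τ) ^ m τ) * F z, ?_, ?_, ?_⟩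
    · have h6 : Differentiable ℂ (fun z => (∏ τ ∈ Z.erase ρ, (z - τ) ^ m τ) * F z) := by
        fun_prop
      exact h6.analyticAt ρ
    · refine mul_ne_zero (Finset.prod_ne_zero_iff.2 fun τ hτ => pow_ne_zero _ ?_) (hFZ ρ hρ)
      exact sub_ne_zero.2 (Finset.ne_of_mem_erase hτ).symm
    · refine Eventually.of_forall fun z => ?_
      rw [hfF z, ← Finset.mul_prod_erase Z _ hρ, smul_eq_mul]
      ring
  unfold analyticOrderNatAt
  rw [h5]
  rfl

private theorem entL {f F : ℂ → ℂ} {Z : Finset ℂ} {m : ℂ → ℕ} (hF : Differentiable ℂ F)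
    (hfF : ∀ z, f z = (∏ ρ ∈ Z, (z - ρ) ^ (m ρ)) * F z) {s : ℂ} (hs : f s ≠ 0)
    (hsZ : ∀ ρ ∈ Z, s ≠ ρ) :
    deriv f s / f s = ∑ ρ ∈ Z, (m ρ : ℂ) / (s - ρ) + deriv F s / F s := by
  have hneq : ∀ ρ ∈ Z, s - ρ ≠ 0 := fun ρ hρ => sub_ne_zero.2 (hsZ ρ hρ)
  have hP : ∏ ρ ∈ Z, (s - ρ) ^ m ρ ≠ 0 :=
    Finset.prod_ne_zero_iff.2 fun ρ hρ => pow_ne_zero _ (hneq ρ hρ)
  have hFs : F s ≠ 0 := by
    intro h
    apply hs
    rw [hfF s, h, mul_zero]
  have h1 : f = fun z => (∏ ρ ∈ Z, (z - ρ) ^ m ρ) * F z := funext hfF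
  have h2 : deriv f s / f s = logDeriv f s := (logDeriv_apply f s).symm
  rw [h2]
  conv_lhs => rw [h1]
  rw [logDeriv_mul s hP hFs (by fun_prop) (hF s), logDeriv_apply F s]
  congr 1
  rw [logDeriv_prod (f := fun ρ z => (z - ρ) ^ m ρ)
    (fun ρ hρ => pow_ne_zero _ (hneq ρ hρ)) (fun ρ _ => by fun_prop)]
  apply Finset.sum_congr rfl
  intro ρ hρ
  rw [logDeriv_fun_pow (by fun_prop), logDeriv_apply]
  simp [div_eq_mul_inv]

private theorem ev1 (a b K : ℝ) (n : ℕ) (h : a < b) :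
    ∀ᶠ X : ℝ in atTop, K * X ^ a * (Real.log X) ^ n ≤ X ^ b := by
  have h1 := isLittleO_log_rpow_rpow_atTop (n : ℝ) (sub_pos.2 h)
  have h2 : ∀ᶠ X : ℝ in atTop, ‖Real.log X ^ (n : ℝ)‖ ≤ (|K| + 1)⁻¹ * ‖X ^ (b - a)‖ :=
    h1.def (by positivity)
  filter_upwards [h2, eventually_gt_atTop 1] with X hX h1X
  have h0 : 0 < X := by linarith
  have hl : 0 ≤ Real.log X := Real.log_nonneg h1X.le
  rw [Real.rpow_natCast, Real.norm_of_nonneg (by positivity), Real.norm_of_nonneg (by positivity)] at hX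
  have hK : 0 < |K| + 1 := by positivity
  have h3 : (|K| + 1) * Real.log X ^ n ≤ X ^ (b - a) := by
    rw [inv_mul_eq_div, le_div_iff₀ hK] at hX
    linarith
  have h4 : X ^ b = X ^ a * X ^ (b - a) := by
    rw [← Real.rpow_add h0]; congr 1; ring
  have h5 : K * Real.log X ^ n ≤ (|K| + 1) * Real.log X ^ n := by
    apply mul_le_mul_of_nonneg_right _ (by positivity)
    linarith [le_abs_self K]
  have h6 : 0 ≤ X ^ a := by positivity
  calc K * X ^ a * Real.log X ^ n = X ^ a * (K * Real.log X ^ n) := by ring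
    _ ≤ X ^ a * X ^ (b - a) := mul_le_mul_of_nonneg_left (h5.trans h3) h6
    _ = X ^ b := h4.symm

private theorem lowL (c : PCh) {s0 : ℂ} {η : ℝ} (hη : 0 < η) (hη1 : η ≤ 1 / 100)
    (hs0 : s0.re = 1 + η) : η / 2 ≤ ‖c.L s0‖ := by
  have h := Pool.Agent.Helper22.GK.tfo_inv c.r c.χ s0 (by rw [hs0]; linarith)
  obtain ⟨h1, h2⟩ := h
  have h3 : 0 < ‖c.L s0‖ := norm_pos_iff.2 h1
  have h4 : ‖c.L s0‖⁻¹ ≤ s0.re / (s0.re - 1) := by
    rw [← norm_inv]; exact h2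
  rw [hs0, show 1 + η - 1 = η by ring] at h4
  have h5 : (1 + η) / η ≤ 2 / η := by
    apply div_le_div_of_nonneg_right _ hη.le
    linarith
  have h6 : ‖c.L s0‖⁻¹ ≤ 2 / η := h4.trans h5
  have h7 : (2 / η)⁻¹ ≤ ‖c.L s0‖ := by
    rw [inv_le_comm₀ (by positivity) h3]; exact h6
  rwa [inv_div] at h7

private theorem growB {c₁ η X : ℝ} {c : PCh} {f : ℂ → ℂ}
    (hG : ∀ s : ℂ, 1 - c₁ ≤ s.re → s.re ≤ 2 → |s.im| ≤ X ^ 2 →
      ((c.χ = 1 → 1 / 4 ≤ ‖s - 1‖) →
        ‖c.L s‖ ≤ X ^ (1 * max 0 (1 - s.re)) * Real.log X ^ 2) ∧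
      (s ≠ 1 → ‖s - 1‖ ≤ 4 →
        ‖(s - 1) * c.L s‖ ≤ X ^ (1 * max 0 (1 - s.re)) * Real.log X ^ 3))
    (h1 : c.χ = 1 → (∀ s, s ≠ 1 → f s = (s - 1) * c.L s) ∧ f 1 = 1) (h2 : c.χ ≠ 1 → f = c.L)
    (hη : 0 < η) (hη1 : η ≤ 1 / 100) (hc : 7 * η ≤ c₁) (hX : 3 ≤ X)
    (hb : (4 / η ^ 2) * X ^ (7 / 100 : ℝ) * Real.log X ^ 3 ≤ X)
    {s0 : ℂ} (hs0 : s0.re = 1 + η) (him : |s0.im| ≤ X) {s : ℂ} (hs : ‖s - s0‖ ≤ 8 * η) :
    ‖f s‖ ≤ Real.exp (Real.log X) * ‖f s0‖ := by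
  have hX0 : 0 < X := by linarith
  rw [Real.exp_log hX0]
  have hl : 1 ≤ Real.log X := by
    rw [Real.le_log_iff_exp_le hX0]
    have := Real.exp_one_lt_d9
    linarith
  have hre : |s.re - s0.re| ≤ 8 * η := by
    have := Complex.abs_re_le_norm (s - s0)
    rw [Complex.sub_re] at this
    linarith
  have hime : |s.im - s0.im| ≤ 8 * η := by
    have := Complex.abs_im_le_norm (s - s0)
    rw [Complex.sub_im] at this
    linarith
  rw [abs_le] at hre hime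
  rw [hs0] at hre
  have hsim : |s.im| ≤ X ^ 2 := by
    rw [abs_le] at him ⊢
    constructor <;> nlinarith
  have hexp : X ^ (1 * max 0 (1 - s.re)) ≤ X ^ (7 / 100 : ℝ) := by
    apply Real.rpow_le_rpow_of_exponent_le (by linarith)
    rw [one_mul]
    apply max_le (by norm_num)
    linarith
  set P : ℝ := X ^ (7 / 100 : ℝ) with hP
  have hP1 : 1 ≤ P := Real.one_le_rpow (by linarith) (by norm_num)
  set l : ℝ := Real.log X with hldef
  have hl2 : l ^ 2 ≤ l ^ 3 := pow_le_pow_right₀ hl (by norm_num)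
  have hl3 : 1 ≤ l ^ 3 := one_le_pow₀ hl
  have hQ : P * l ^ 2 ≤ P * l ^ 3 := mul_le_mul_of_nonneg_left hl2 (by linarith)
  have hQ1 : 1 ≤ P * l ^ 3 := one_le_mul_of_one_le_of_one_le hP1 hl3
  have hQ0 : 0 < P * l ^ 3 := by linarith
  have hl0 := lowL c hη hη1 hs0
  have hGs := hG s (by linarith [hre.1]) (by linarith [hre.2]) hsim
  have hXA : ∀ A : ℝ, 0 ≤ A → (4 / η ^ 2) * (P * l ^ 3) * A ≤ X * A := fun A hA =>
    mul_le_mul_of_nonneg_right (by rw [← mul_assoc]; exact hb) hA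
  have hnf : 0 ≤ ‖c.L s0‖ := norm_nonneg _
  by_cases h : c.χ = 1
  · have hs01 : s0 ≠ 1 := by
      rintro rfl
      simp at hs0
      linarith
    have hn1 : η ≤ ‖s0 - 1‖ := by
      have := Complex.abs_re_le_norm (s0 - 1)
      rw [Complex.sub_re, hs0, Complex.one_re, show 1 + η - 1 = η by ring, abs_of_pos hη] at this
      exact this
    have hf0 : ‖f s0‖ = ‖s0 - 1‖ * ‖c.L s0‖ := by
      rw [(h1 h).1 s0 hs01, norm_mul]
    have hf1 : ‖s0 - 1‖ * (η / 2) ≤ ‖f s0‖ := by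
      rw [hf0]
      exact mul_le_mul_of_nonneg_left hl0 (norm_nonneg _)
    have hf2 : (4 / η ^ 2) * (P * l ^ 3) * (‖s0 - 1‖ * (η / 2)) ≤ X * ‖f s0‖ :=
      (hXA _ (by positivity)).trans (mul_le_mul_of_nonneg_left hf1 hX0.le)
    have hf3 : (4 / η ^ 2) * (P * l ^ 3) * (‖s0 - 1‖ * (η / 2)) =
        2 * (P * l ^ 3) * (‖s0 - 1‖ / η) := by
      field_simp
      ring
    rw [hf3] at hf2
    have hf4 : 1 ≤ ‖s0 - 1‖ / η := by
      rw [le_div_iff₀ hη]; linarith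
    have hf5 : 2 * (P * l ^ 3) ≤ X * ‖f s0‖ := by
      refine le_trans ?_ hf2
      have : 2 * (P * l ^ 3) * 1 ≤ 2 * (P * l ^ 3) * (‖s0 - 1‖ / η) :=
        mul_le_mul_of_nonneg_left hf4 (by positivity)
      linarith
    by_cases hs1 : s = 1
    · rw [hs1, (h1 h).2, norm_one]
      linarith
    · rw [(h1 h).1 s hs1]
      by_cases h4 : ‖s - 1‖ ≤ 4
      · refine (hGs.2 hs1 h4).trans ?_
        have : X ^ (1 * max 0 (1 - s.re)) * l ^ 3 ≤ P * l ^ 3 :=
          mul_le_mul_of_nonneg_right hexp (by positivity)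
        linarith
      · rw [not_le] at h4
        have h5 := hGs.1 (fun _ => by linarith)
        have h6 : ‖s - 1‖ ≤ 2 * ‖s0 - 1‖ := by
          have h7 : ‖s - 1‖ ≤ ‖s - s0‖ + ‖s0 - 1‖ := norm_sub_le_norm_sub_add_norm_sub s s0 1
          linarith
        rw [norm_mul]
        have h8 : ‖c.L s‖ ≤ P * l ^ 3 :=
          (h5.trans (mul_le_mul_of_nonneg_right hexp (by positivity))).trans hQ
        have h9 : ‖s - 1‖ * ‖c.L s‖ ≤ (2 * ‖s0 - 1‖) * (P * l ^ 3) :=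
          mul_le_mul h6 h8 (norm_nonneg _) (by positivity)
        refine h9.trans (le_trans ?_ hf2)
        have h10 : ‖s0 - 1‖ ≤ ‖s0 - 1‖ / η := by
          rw [le_div_iff₀ hη]
          have := norm_nonneg (s0 - 1)
          nlinarith
        have := mul_le_mul_of_nonneg_left h10 (show 0 ≤ 2 * (P * l ^ 3) by positivity)
        linarith
  · rw [h2 h]
    have h5 := hGs.1 (fun h' => absurd h' h)
    have h8 : ‖c.L s‖ ≤ P * l ^ 3 :=
      (h5.trans (mul_le_mul_of_nonneg_right hexp (by positivity))).trans hQ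
    have h9 : (4 / η ^ 2) * (P * l ^ 3) * (η / 2) ≤ X * ‖c.L s0‖ :=
      (hXA _ (by positivity)).trans (mul_le_mul_of_nonneg_left hl0 hX0.le)
    have h10 : (4 / η ^ 2) * (P * l ^ 3) * (η / 2) = (P * l ^ 3) * (2 / η) := by
      field_simp
      ring
    rw [h10] at h9
    have h11 : 1 ≤ 2 / η := by
      rw [le_div_iff₀ hη]; linarith
    have h12 := mul_le_mul_of_nonneg_left h11 hQ0.le
    linarith

/-- the bound at a point where `f` does not vanish -/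
private theorem mainB {C η X Y : ℝ} {c : PCh} {f F : ℂ → ℂ} {s : ℂ} (R Z : Finset ℂ)
    (hη : 0 < η)
    (hF : Differentiable ℂ F) (hfF : ∀ z, f z = (∏ ρ ∈ R, (z - ρ) ^ (mz c ρ)) * F z)
    (hfs : f s ≠ 0) (hfR : ∀ ρ ∈ R, f ρ = 0)
    (hord : ∀ ρ ∈ Z, analyticOrderNatAt f ρ = mz c ρ)
    (hsum : (∑ ρ ∈ Z, (analyticOrderNatAt f ρ : ℝ)) ≤ C * Real.log X)
    (hld : ‖deriv f s / f s - ∑ ρ ∈ Z, (analyticOrderNatAt f ρ : ℂ) / (s - ρ)‖ ≤
      C * Real.log X / (8 * η))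
    (hsR : ∑ ρ ∈ R, (mz c ρ : ℝ) ≤ Y)
    (h1 : ∀ ρ ∈ Z, ρ ∉ R → η ≤ ‖s - ρ‖) (h2 : ∀ ρ ∈ R, ρ ∉ Z → 2 * η ≤ ‖s - ρ‖) :
    ‖deriv F s / F s‖ ≤ (C * Real.log X / η) * (9 / 8) + Y / (2 * η) := by
  classical
  have hsR' : ∀ ρ ∈ R, s ≠ ρ := by
    intro ρ hρ h
    exact hfs (h ▸ hfR ρ hρ)
  have hL := entL hF hfF hfs hsR'
  have hZm' : ∑ ρ ∈ Z, (analyticOrderNatAt f ρ : ℂ) / (s - ρ) = ∑ ρ ∈ Z, (mz c ρ : ℂ) / (s - ρ) :=
    Finset.sum_congr rfl fun ρ hρ => by rw [hord ρ hρ]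
  have hZr' : ∑ ρ ∈ Z, (analyticOrderNatAt f ρ : ℝ) = ∑ ρ ∈ Z, (mz c ρ : ℝ) :=
    Finset.sum_congr rfl fun ρ hρ => by rw [hord ρ hρ]
  rw [hZm'] at hld
  rw [hZr'] at hsum
  have hZs : ∑ ρ ∈ Z, (mz c ρ : ℂ) / (s - ρ) = ∑ ρ ∈ Z \ R, (mz c ρ : ℂ) / (s - ρ) +
      ∑ ρ ∈ Z ∩ R, (mz c ρ : ℂ) / (s - ρ) := by
    rw [← Finset.sum_sdiff (Finset.inter_subset_left (s₁ := Z) (s₂ := R)), Finset.sdiff_inter_self_left]
  have hRs : ∑ ρ ∈ R, (mz c ρ : ℂ) / (s - ρ) = ∑ ρ ∈ R \ Z, (mz c ρ : ℂ) / (s - ρ) +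
      ∑ ρ ∈ Z ∩ R, (mz c ρ : ℂ) / (s - ρ) := by
    rw [← Finset.sum_sdiff (Finset.inter_subset_right (s₁ := Z) (s₂ := R)), Finset.sdiff_inter_self_right]
  have heq : deriv F s / F s = (deriv f s / f s - ∑ ρ ∈ Z, (mz c ρ : ℂ) / (s - ρ)) +
      ∑ ρ ∈ Z \ R, (mz c ρ : ℂ) / (s - ρ) - ∑ ρ ∈ R \ Z, (mz c ρ : ℂ) / (s - ρ) := by
    rw [hL, hZs, hRs]
    ring
  have hb1 : ‖∑ ρ ∈ Z \ R, (mz c ρ : ℂ) / (s - ρ)‖ ≤ C * Real.log X / η := by
    calc ‖∑ ρ ∈ Z \ R, (mz c ρ : ℂ) / (s - ρ)‖ ≤ ∑ ρ ∈ Z \ R, (mz c ρ : ℝ) / η := by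
          refine norm_sum_le_of_le _ fun ρ hρ => ?_
          rw [Finset.mem_sdiff] at hρ
          rw [norm_div, Complex.norm_natCast]
          exact div_le_div_of_nonneg_left (Nat.cast_nonneg _) hη (h1 ρ hρ.1 hρ.2)
      _ = (∑ ρ ∈ Z \ R, (mz c ρ : ℝ)) / η := by rw [Finset.sum_div]
      _ ≤ C * Real.log X / η := by
          apply div_le_div_of_nonneg_right _ hη.le
          refine le_trans ?_ hsum
          exact Finset.sum_le_sum_of_subset_of_nonneg Finset.sdiff_subset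
            (fun _ _ _ => Nat.cast_nonneg _)
  have hb2 : ‖∑ ρ ∈ R \ Z, (mz c ρ : ℂ) / (s - ρ)‖ ≤ Y / (2 * η) := by
    calc ‖∑ ρ ∈ R \ Z, (mz c ρ : ℂ) / (s - ρ)‖ ≤ ∑ ρ ∈ R \ Z, (mz c ρ : ℝ) / (2 * η) := by
          refine norm_sum_le_of_le _ fun ρ hρ => ?_
          rw [Finset.mem_sdiff] at hρ
          rw [norm_div, Complex.norm_natCast]
          exact div_le_div_of_nonneg_left (Nat.cast_nonneg _) (by linarith) (h2 ρ hρ.1 hρ.2)
      _ = (∑ ρ ∈ R \ Z, (mz c ρ : ℝ)) / (2 * η) := by rw [Finset.sum_div]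
      _ ≤ Y / (2 * η) := by
          apply div_le_div_of_nonneg_right _ (by linarith)
          refine le_trans ?_ hsR
          exact Finset.sum_le_sum_of_subset_of_nonneg Finset.sdiff_subset
            (fun _ _ _ => Nat.cast_nonneg _)
  rw [heq]
  refine (norm_sub_le _ _).trans ?_
  have h3 := norm_add_le (deriv f s / f s - ∑ ρ ∈ Z, (mz c ρ : ℂ) / (s - ρ))
    (∑ ρ ∈ Z \ R, (mz c ρ : ℂ) / (s - ρ))
  have h4 : C * Real.log X / (8 * η) = (C * Real.log X / η) * (1 / 8) := by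
    field_simp
  rw [h4] at hld
  linarith

private theorem evAll (X1 X2 C η : ℝ) (hη : 0 < η) : ∃ X0 : ℝ, 2 ≤ X0 ∧ ∀ X : ℝ, X0 ≤ X →
    X1 ≤ X ∧ X2 ≤ X ∧ 16 ≤ X ∧ (4 / η ^ 2) * X ^ (7 / 100 : ℝ) * Real.log X ^ 3 ≤ X ∧
    (C * Real.log X / η) * (9 / 8) + X ^ (η / 50) / (2 * η) ≤ X ^ (η / 40) := by
  have e1 := ev1 (7 / 100) 1 (4 / η ^ 2) 3 (by norm_num)
  have e2 := ev1 0 (η / 40) (4 * C / η) 1 (by linarith)
  have e3 := ev1 (η / 50) (η / 40) (2 / η) 0 (by linarith)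
  obtain ⟨X0, hX0⟩ := eventually_atTop.1 ((((e1.and e2).and e3).and (eventually_ge_atTop X1)).and
    ((eventually_ge_atTop X2).and (eventually_ge_atTop 16)))
  refine ⟨max X0 2, le_max_right _ _, fun X hX => ?_⟩
  obtain ⟨⟨⟨⟨h1, h2⟩, h3⟩, h4⟩, h5, h6⟩ := hX0 X ((le_max_left _ _).trans hX)
  refine ⟨h4, h5, h6, ?_, ?_⟩
  · rwa [Real.rpow_one] at h1
  · rw [Real.rpow_zero, mul_one, pow_one] at h2
    rw [pow_zero, mul_one] at h3
    have h7 : (C * Real.log X / η) * (9 / 8) = (4 * C / η * Real.log X) * (9 / 32) := by ring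
    have h8 : X ^ (η / 50) / (2 * η) = (2 / η * X ^ (η / 50)) * (1 / 4) := by
      field_simp
      norm_num
    have h9 : 0 ≤ X ^ (η / 40) := Real.rpow_nonneg (by linarith) _
    rw [h7, h8]
    linarith

theorem hGrd : StFin → StGrw → StLd2 → StNum → StGrd := by
  intro hFin hGrw hLd2 hNum
  obtain ⟨c₁, X1, hc₁, hc₁8, hX1, hG⟩ := hGrw 1 one_pos le_rfl
  obtain ⟨C, hC, hLD⟩ := hLd2
  obtain ⟨η₀, hη₀, hη₀1, hN⟩ := hNum
  refine ⟨min (1 / 100) (min (c₁ / 10) η₀), by positivity, min_le_left _ _, ?_⟩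
  intro η hη hη1
  have hη100 : η ≤ 1 / 100 := hη1.trans (min_le_left _ _)
  have hηc : η ≤ c₁ / 10 := hη1.trans ((min_le_right _ _).trans (min_le_left _ _))
  have hηη : η ≤ η₀ := hη1.trans ((min_le_right _ _).trans (min_le_right _ _))
  obtain ⟨X2, hX2, hN⟩ := hN η hη hηη
  obtain ⟨X0, hX0, hev⟩ := evAll X1 X2 C η hη
  refine ⟨X0, hX0, ?_⟩
  intro X c t hX hr ht
  obtain ⟨hXX1, hXX2, hX16, hXb, hXc⟩ := hev X hX
  have hX1' : (1 : ℝ) ≤ X := by linarith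
  have hXpos : 0 < X := by linarith
  obtain ⟨f, hf, h1, h2⟩ := entG c
  set T : ℝ := X ^ (3 * η / 10) with hT
  have hT0 : 0 < T := Real.rpow_pos_of_pos hXpos _
  have hTX : T + 1 ≤ X / 2 := by
    have h3 : T ≤ √X := by
      rw [hT, Real.sqrt_eq_rpow]
      exact Real.rpow_le_rpow_of_exponent_le hX1' (by linarith)
    have h4 : √X * √X = X := Real.mul_self_sqrt hXpos.le
    have h5 : 4 ≤ √X := by
      apply Real.le_sqrt_of_sq_le
      linarith
    nlinarith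
  have hmem : ∀ ρ, ρ ∈ Rz c η X t ↔ (c.L ρ = 0 ∧ 1 - 2 * η ≤ ρ.re ∧ |ρ.im| ≤ X) ∧
      |ρ.im - t| ≤ T + 1 := by
    intro ρ
    unfold Rz
    rw [Finset.mem_filter, hFin.2.1 c (2 * η) X ρ (by linarith)]
  have hL1 : ∀ ρ, c.L ρ = 0 → ρ ≠ 1 := by
    rintro ρ h rfl
    exact L_ne (c := c) (s := 1) (by simp) h
  obtain ⟨F, hF, hFZ, hfF⟩ := entR hf h1 h2 (Rz c η X t) fun ρ hρ => hL1 ρ ((hmem ρ).1 hρ).1.1
  have hcont : Continuous (fun z : ℂ => F (z + t * Complex.I)) := hF.continuous.comp (by fun_prop)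
  have hdF : Differentiable ℂ (deriv F) := hF.deriv
  have hgd : ∀ z : ℂ, F (z + t * Complex.I) ≠ 0 →
      DifferentiableAt ℂ (fun z : ℂ => -(deriv F (z + t * Complex.I) / F (z + t * Complex.I))) z := by
    intro z hz
    have h3 : DifferentiableAt ℂ (fun z : ℂ => deriv F (z + t * Complex.I)) z :=
      (hdF _).comp z (by fun_prop)
    have h4 : DifferentiableAt ℂ (fun z : ℂ => F (z + t * Complex.I)) z :=
      (hF _).comp z (by fun_prop)
    exact (h3.div h4 hz).neg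
  have hsre : ∀ z : ℂ, (z + t * Complex.I).re = z.re := by
    intro z; simp
  have hsim : ∀ z : ℂ, (z + t * Complex.I).im = z.im + t := by
    intro z; simp
  have habs := abs_le.1 ht
  -- `F ≠ 0` on the rectangle
  have hU : ∀ z : ℂ, 1 - η ≤ z.re → |z.im| ≤ T → F (z + t * Complex.I) ≠ 0 := by
    intro z hz1 hz3 h
    have h3 : f (z + t * Complex.I) = 0 := by rw [hfF, h, mul_zero]
    have h4 := (entZ h1 h2 _).1 h3
    refine hFZ _ ((hmem _).2 ⟨⟨h4, ?_, ?_⟩, ?_⟩) h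
    · rw [hsre]; linarith
    · rw [hsim]
      rw [abs_le] at hz3 ⊢
      constructor <;> linarith
    · rw [hsim, add_sub_cancel_right]; linarith
  have hlog : 1 ≤ Real.log X := by
    rw [Real.le_log_iff_exp_le hXpos]
    have := Real.exp_one_lt_d9
    linarith
  have hrN : ∑ ρ ∈ Rz c η X t, (mz c ρ : ℝ) ≤ X ^ (η / 50) := by
    have h3 := hN X c hXX2 (hr.trans (Real.rpow_le_rpow_of_exponent_le hX1' (by linarith)))
    refine le_trans ?_ h3
    exact Finset.sum_le_sum_of_subset_of_nonneg (Finset.filter_subset _ _)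
      (fun _ _ _ => Nat.cast_nonneg _)
  -- the bound where `f ≠ 0`
  have hB : ∀ z : ℂ, 1 - η ≤ z.re → z.re ≤ 1 + η → |z.im| ≤ T → f (z + t * Complex.I) ≠ 0 →
      ‖-(deriv F (z + t * Complex.I) / F (z + t * Complex.I))‖ ≤ X ^ (η / 40) := by
    intro z hz1 hz2 hz3 hfz
    rw [norm_neg]
    refine le_trans ?_ hXc
    set s : ℂ := z + t * Complex.I with hs
    have hz3' := abs_le.1 hz3
    set s0 : ℂ := ⟨1 + η, s.im⟩ with hs0
    have hs0re : s0.re = 1 + η := rfl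
    have hs0im : s0.im = s.im := rfl
    have him : |s.im| ≤ X := by
      rw [hsim, abs_le]
      constructor <;> linarith
    have hdist : ‖s - s0‖ ≤ 2 * η := by
      have h3 : s - s0 = ((z.re - (1 + η) : ℝ) : ℂ) := by
        apply Complex.ext
        · rw [Complex.sub_re, hs0re, hsre, Complex.ofReal_re]
        · rw [Complex.sub_im, hs0im, sub_self, Complex.ofReal_im]
      rw [h3, Complex.norm_real, Real.norm_eq_abs, abs_le]
      constructor <;> linarith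
    have hf0 : f s0 ≠ 0 := fun h => L_ne (c := c) (s := s0) (by rw [hs0re]; linarith)
      ((entZ h1 h2 _).1 h)
    have hgr : ∀ s' ∈ Metric.closedBall s0 (8 * η), ‖f s'‖ ≤ Real.exp (Real.log X) * ‖f s0‖ := by
      intro s' hs'
      rw [Metric.mem_closedBall, dist_eq_norm] at hs'
      refine growB (c₁ := c₁) ?_ h1 h2 hη hη100 (by linarith) (by linarith) hXb hs0re
        (by rw [hs0im]; exact him) hs'
      intro w hw1 hw2 hw3
      exact hG X c.r c.χ w hXX1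
        (hr.trans (Real.rpow_le_rpow_of_exponent_le hX1' (by linarith))) hw1 hw2 hw3
    obtain ⟨Z, hZm, hZs, hZd⟩ := hLD f s0 (8 * η) (Real.log X) (by linarith) hlog
      hf.differentiableOn hf0 hgr
    refine mainB (Rz c η X t) Z hη hF hfF hfz ?_ ?_ hZs
      (hZd s (by linarith) hfz) hrN ?_ ?_
    · intro ρ hρ
      exact (entZ h1 h2 _).2 ((hmem ρ).1 hρ).1.1
    · intro ρ hρ
      exact entM h1 h2 (hL1 ρ ((entZ h1 h2 _).1 ((hZm ρ).1 hρ).1))
    · intro ρ hρ hρR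
      obtain ⟨h3, h4⟩ := (hZm ρ).1 hρ
      have h5 : |ρ.im - s.im| ≤ 4 * η := by
        have := Complex.abs_im_le_norm (ρ - s0)
        rw [Complex.sub_im, hs0im] at this
        linarith
      rw [abs_le, hsim] at h5
      have h6 : ρ.re < 1 - 2 * η := by
        by_contra h7
        rw [not_lt] at h7
        refine hρR ((hmem ρ).2 ⟨⟨(entZ h1 h2 _).1 h3, h7, ?_⟩, ?_⟩)
        · rw [abs_le]; constructor <;> linarith
        · rw [abs_le]; constructor <;> linarith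
      have h7 := Complex.abs_re_le_norm (s - ρ)
      rw [Complex.sub_re, hsre] at h7
      have h8 := le_abs_self (z.re - ρ.re)
      linarith
    · intro ρ hρ hρZ
      have h3 : f ρ = 0 := (entZ h1 h2 _).2 ((hmem ρ).1 hρ).1.1
      have h4 : 4 * η < ‖ρ - s0‖ := by
        by_contra h5
        rw [not_lt] at h5
        exact hρZ ((hZm ρ).2 ⟨h3, by linarith⟩)
      have h5 : ‖ρ - s0‖ ≤ ‖ρ - s‖ + ‖s - s0‖ := norm_sub_le_norm_sub_add_norm_sub ρ s s0
      rw [norm_sub_rev ρ s] at h5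
      linarith
  refine ⟨fun z => -(deriv F (z + t * Complex.I) / F (z + t * Complex.I)),
    {z | F (z + t * Complex.I) ≠ 0}, isOpen_compl_singleton.preimage hcont,
    fun z hz => (hgd z hz).differentiableWithinAt, ?_, ?_⟩
  · intro z hz1 hz2 hz3
    refine ⟨hU z hz1 hz3, ?_⟩
    by_cases hfz : f (z + t * Complex.I) = 0
    · -- by continuity
      have hLz : c.L (z + t * Complex.I) = 0 := (entZ h1 h2 _).1 hfz
      have hre1 : z.re < 1 := by
        by_contra h3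
        rw [not_lt] at h3
        exact L_ne (c := c) (s := z + t * Complex.I) (by rw [hsre]; exact h3) hLz
      have hc1 : ContinuousAt (fun z : ℂ => -(deriv F (z + t * Complex.I) / F (z + t * Complex.I))) z :=
        (hgd z (hU z hz1 hz3)).continuousAt
      have ht1 : Tendsto (fun ε : ℝ => z + (ε : ℂ)) (𝓝[>] 0) (𝓝 z) := by
        have : Tendsto (fun ε : ℝ => z + (ε : ℂ)) (𝓝 0) (𝓝 (z + ((0 : ℝ) : ℂ))) :=
          Continuous.tendsto (by fun_prop) 0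
        rw [Complex.ofReal_zero, add_zero] at this
        exact this.mono_left nhdsWithin_le_nhds
      have ht2 := (hc1.tendsto.comp ht1).norm
      refine le_of_tendsto ht2 ?_
      have hiso : ∀ᶠ w in 𝓝[≠] (z + t * Complex.I), f w ≠ 0 := by
        rcases (hf.analyticAt (z + t * Complex.I)).eventually_eq_zero_or_eventually_ne_zero with h3 | h3
        · exfalso
          have h4 : AnalyticOnNhd ℂ f Set.univ := hf.differentiableOn.analyticOnNhd isOpen_univ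
          have h5 := h4.eqOn_zero_of_preconnected_of_eventuallyEq_zero isPreconnected_univ
            (Set.mem_univ _) h3 (Set.mem_univ (2 : ℂ))
          exact L_ne (c := c) (s := 2) (by simp) ((entZ h1 h2 2).1 h5)
        · exact h3
      have ht3 : Tendsto (fun ε : ℝ => z + (ε : ℂ) + t * Complex.I) (𝓝[>] 0)
          (𝓝[≠] (z + t * Complex.I)) := by
        rw [tendsto_nhdsWithin_iff]
        refine ⟨ht1.add_const _, ?_⟩
        filter_upwards [self_mem_nhdsWithin] with ε hε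
        intro h3
        have h4 : z + (ε : ℂ) + t * Complex.I = z + t * Complex.I := h3
        have h5 : (ε : ℂ) = 0 := by linear_combination h4
        rw [Complex.ofReal_eq_zero] at h5
        exact (ne_of_gt hε) h5
      have hsm : ∀ᶠ ε : ℝ in 𝓝[>] 0, ε < 1 - z.re :=
        (eventually_lt_nhds (by linarith)).filter_mono nhdsWithin_le_nhds
      filter_upwards [ht3.eventually hiso, hsm, self_mem_nhdsWithin] with ε h3 h4 h5
      have h6 : (0 : ℝ) < ε := h5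
      refine hB (z + (ε : ℂ)) ?_ ?_ ?_ h3
      · rw [Complex.add_re, Complex.ofReal_re]; linarith
      · rw [Complex.add_re, Complex.ofReal_re]; linarith
      · rw [Complex.add_im, Complex.ofReal_im, add_zero]; exact hz3
    · exact hB z hz1 hz2 hz3 hfz
  · intro z hz
    have hs1 : 1 < (z + t * Complex.I).re := by rw [hsre]; exact hz
    have hLs : c.L (z + t * Complex.I) ≠ 0 := L_ne hs1.le
    have hfs : f (z + t * Complex.I) ≠ 0 := fun h => hLs ((entZ h1 h2 _).1 h)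
    have h3 := entD h1 h2 hs1
    have h4 := entL hF hfF hfs (fun ρ hρ h => hLs (by rw [h]; exact ((hmem ρ).1 hρ).1.1))
    have h5 : deriv F (z + t * Complex.I) / F (z + t * Complex.I) =
        deriv c.L (z + t * Complex.I) / c.L (z + t * Complex.I) +
        (if c.χ = 1 then 1 / (z + t * Complex.I - 1) else 0) -
        ∑ ρ ∈ Rz c η X t, (mz c ρ : ℂ) / (z + t * Complex.I - ρ) := by
      rw [← h3, h4]; ring
    show -(deriv F (z + t * Complex.I) / F (z + t * Complex.I)) = _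
    rw [h5]
    ring

end Pool.Agent.Helper94.MV
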